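import Pool.Agent.L7h46.TK.Err
import Pool.Agent.L7h46.TK.Fin
import Pool.Agent.R460.GH.Asm
import Pool.Agent.Y883.GJ.AsmT

/-! Project TK (helper46), the assembly: the ternary equation with pairwise coprime coefficients at the
level `2 / 3`. -/

set_option autoImplicit false

namespace Pool.Agent.L7h46.TK

open Pool.Agent.Y883.GJ
open Pool.Agent.Y883.T5
open Pool.Agent.Y883.T6

/-- the pointwise bound on the major arcs, three factors, all levels up to `3 / 4` -/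
theorem tpwK_all : TPWK :=
  tPWK Pool.Agent.Y297.GJ.orth Pool.Agent.Y812.GJ.l2 Pool.Agent.Y185.GJ.smallC
    Pool.Agent.Y812.GJ.nonU Pool.Agent.Y445.GJ.tNorm Pool.Agent.Y702.GJ.tJac

/-- the ternary error term, all levels up to `3 / 4` -/
theorem ternK_all : TernK :=
  ternK tpwK_all Pool.Agent.Y445.GJ.tNorm Pool.Agent.Y730.GJ.tLift Pool.Agent.Y730.GJ.tPars
    Pool.Agent.Y297.GJ.orth Pool.Agent.Y812.GJ.nonU

/-- the error term of the equation at the level `2 / 3` -/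
theorem errK_all : Err7K :=
  err7K ternK_all Pool.Agent.Y812.GJ.l2
    (Pool.Agent.R460.GH.bilMaj3 Pool.Agent.Y812.GJ.l2 (Pool.Agent.R460.GH.countK Pool.Agent.Y812.GJ.l2))
    Pool.Agent.Y909.GJ.bilMin (Pool.Agent.R460.GS.tiMaj2 Pool.Agent.Y812.GJ.l2) Pool.Agent.Y412.GJ.tiMin
    Pool.Agent.Y812.GJ.lsh_le model_all Pool.Agent.Y756.GJ.hold

/-- all admissible equations with pairwise coprime coefficients, exponent `3 + ε` -/
theorem main_all (θ : ℝ) (hθ : 3 / 2 < θ) (T : ℕ) : ∃ Δ₀ : ℕ, ∀ a b c d : ℤ, Admissible a b c d →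
    Int.gcd a b = 1 → Int.gcd b c = 1 → Int.gcd c a = 1 → ∀ Δ : ℕ,
    Δ = max (a * b).natAbs (max (b * c).natAbs (c * a).natAbs) → Δ₀ ≤ Δ →
    (Int.gcd d (a * b * c) : ℝ) ≤ Real.log Δ ^ T → Sol6 θ Δ a b c d :=
  mainK errK_all θ hθ T

end Pool.Agent.L7h46.TK
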