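import Pool.Agent.Y883.GJ.Stm4
import Pool.Agent.Y883.T6.Solve6

set_option autoImplicit false

/-! Project TK (helper46): the statement of the error term at the level `2 / 3`. -/

namespace Pool.Agent.L7h46.TK

open Finset
open Pool.Agent.Y883.GJ
open Pool.Agent.H373R2.T7 (lamz)
open Pool.Agent.Y883.T6 (S3 zP)

/-- ERR7K: the primes may be replaced by the sieve models -/
def Err7K : Prop := ∀ (A T B₀ : ℕ) (ρ : ℝ), 0 < ρ → ∃ B : ℕ, B₀ ≤ B ∧ ∃ N₀ : ℕ, ∀ N : ℕ, N₀ ≤ N →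
  ∀ {c1 c2 c3 d : ℤ} {P1 P2 P3 : ℕ}, Par7 (-1 / 6 + ρ) N T c1 c2 c3 d P1 P2 P3 →
  |S3 c1 c2 c3 d P1 P2 P3 (fun n => ArithmeticFunction.vonMangoldt n) (fun n => ArithmeticFunction.vonMangoldt n)
      (fun n => ArithmeticFunction.vonMangoldt n) -
    S3 c1 c2 c3 d P1 P2 P3 (fun n => lamz (zP B P1) n) (fun n => lamz (zP B P2) n)
      (fun n => lamz (zP B P3) n)| ≤
    (N : ℝ) ^ 2 / (c1.natAbs * c2.natAbs * c3.natAbs) / Real.log N ^ A

end Pool.Agent.L7h46.TK
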