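import Pool.Agent.Y949.GJ.Err7
import Pool.Agent.L7h46.TK.Stm
import Pool.Agent.L7h46.TK.Tern
import Pool.Agent.R460.GH.Err

set_option autoImplicit false

/-! Project TK (helper46): the primes may be replaced by the sieve models in the ternary equation, at the
level `2 / 3` (adapted from `Y949/GJ`, with the distribution of the primes from `R460/GH`). -/

namespace Pool.Agent.L7h46.TK

open Finset
open Pool.Agent.Y883.GJ
open Pool.Agent.Y949.GJ hiding Sc scale err7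
open Pool.Agent.R460.GH
open Pool.Agent.R460.GS
open Pool.Agent.H807R2.Dav (ee)
open Pool.Agent.H373R2.T7 (lamz Vz pz Vz_pos lamz_nonneg)
open Pool.Agent.Y883.T3 (lsh)
open Pool.Agent.Y883.T6 (S3 zP)

/-- the facts at one scale -/
structure Sc (ρ : ℝ) (A1 C1 A2 C3 U V P z r : ℕ) : Prop where
  sL : Str ρ A2 (C1 + 1) C3 P LA
  sS : Str ρ A2 (C1 + 1) C3 P (LS z r)
  sF : Str ρ A2 (C1 + 1) C3 P (FF z r)
  mF : Mnr ρ A1 C1 P (FF z r)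
  sup : ∀ α : ℝ, ‖∑ n ∈ Icc 1 P, FF z r n * ee (n * α)‖ ≤ P / Real.log P ^ U
  ncF : ∀ q : ℕ, 1 ≤ q → q ≤ P →
    ∑ n ∈ (Icc 1 P).filter (fun n => ¬ n.Coprime q), ‖FF z r n‖ ≤ P / Real.log P ^ U
  e2 : ∑ n ∈ Icc 1 P, ‖LS z r n - LZ z n‖ ^ 2 ≤ P / Real.log P ^ V
  s2 : ∑ n ∈ Icc 1 P, ‖LS z r n‖ ^ 2 ≤ P * Real.log P ^ 7
  l2 : ∑ n ∈ Icc 1 P, ‖LZ z n‖ ^ 2 ≤ P * Real.log P ^ 7

/-- the facts at one scale -/
theorem scale {ρ : ℝ} {A1 C1 A2 C3 U V U' P z r : ℕ} (hL : 2048 ≤ Real.log P)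
    (hU : U ≤ U') (hA : A2 + 1 ≤ U') (hV : 2 * V + 12 ≤ U')
    (hF : ∀ (q : ℕ) [NeZero q], (q : ℝ) ≤ (P : ℝ) ^ (1 / 2 - ρ) →
      ∀ (k : ℕ) (h : ℤ) (β : ℝ), Real.log P ^ C1 ≤ k → (q : ℝ) * k * Real.log P ^ C1 ≤ P →
        IsCoprime h (k : ℤ) → |q * β - h / k| ≤ 1 / (k : ℝ) ^ 2 →
        ∑ χ : DirichletCharacter ℂ q, ‖cs q P (FF z r) β χ‖ ^ 2 ≤ (P : ℝ) ^ 2 / Real.log P ^ A1)
    (hLm : ∀ (q : ℕ) [NeZero q], (q : ℝ) ≤ (P : ℝ) ^ (1 / 2 - ρ) →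
      ∃ B : Finset (DirichletCharacter ℂ q), 1 ∈ B ∧ (B.card : ℝ) ≤ Real.log P ^ C3 ∧
        ∀ η : ℝ, |η| ≤ Real.log P ^ (C1 + 1) / P → ∀ S : Finset (DirichletCharacter ℂ q), Disjoint S B →
          ∑ χ ∈ S, ‖cs q P LA η χ‖ ^ 2 ≤ (P : ℝ) ^ 2 / Real.log P ^ (A2 + 4))
    (hH : ∀ (q : ℕ) [NeZero q], (q : ℝ) ≤ (P : ℝ) ^ (1 / 2 - ρ) →
      ∀ η : ℝ, |η| ≤ Real.log P ^ (C1 + 1) / P → ∀ S : Finset (DirichletCharacter ℂ q), 1 ∉ S →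
        ∑ χ ∈ S, ‖cs q P (LS z r) η χ‖ ^ 2 ≤ (P : ℝ) ^ 2 / Real.log P ^ (A2 + 4))
    (hP : Par U' P z r) (hm : ∑ n ∈ Icc 1 P, |lamz z n - lsh z r n| ≤ P / Real.log P ^ U') :
    Sc ρ A1 C1 A2 C3 U V P z r := by
  obtain ⟨L, hLd⟩ : ∃ L, L = Real.log (P : ℝ) := ⟨_, rfl⟩
  have hD := hP.hD
  have hVz := hP.hV
  have hTb := hP.hT
  have hS := hP.hS
  have hC := hP.hC
  have hLc := hP.hL
  rw [← hLd] at hL hF hLm hH hm hVz hTb hS hC hLc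
  have hL1 : 1 ≤ L := by linarith
  have hL0 : 0 < L := by linarith
  have hP0 : (0 : ℝ) ≤ P := Nat.cast_nonneg _
  have htau : ∀ n ∈ Icc 1 P, (1 : ℝ) ≤ (n.divisors.card : ℝ) := by
    intro n hn
    rw [mem_Icc] at hn
    exact_mod_cast Finset.card_pos.2 ⟨1, Nat.one_mem_divisors.2 (by omega)⟩
  have hLn : ∀ n ∈ Icc 1 P, ‖LA n‖ ≤ L := by
    intro n hn
    rw [mem_Icc] at hn
    unfold LA
    rw [Complex.norm_real, Real.norm_eq_abs, abs_of_nonneg ArithmeticFunction.vonMangoldt_nonneg]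
    refine ArithmeticFunction.vonMangoldt_le_log.trans ?_
    rw [hLd]
    apply Real.log_le_log (by exact_mod_cast hn.1) (by exact_mod_cast hn.2)
  have hSn : ∀ n ∈ Icc 1 P, ‖LS z r n‖ ≤ L * (n.divisors.card : ℝ) := by
    intro n hn
    have h1 := htau n hn
    rw [mem_Icc] at hn
    unfold LS
    rw [Complex.norm_real, Real.norm_eq_abs]
    refine (Pool.Agent.Y883.T3.lsh_le z r n hn.1).trans ?_
    exact mul_le_mul_of_nonneg_right hVz (by linarith)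
  have hZn : ∀ n ∈ Icc 1 P, ‖LZ z n‖ ≤ L * (n.divisors.card : ℝ) := by
    intro n hn
    have h1 := htau n hn
    unfold LZ
    rw [Complex.norm_real, Real.norm_eq_abs, abs_of_nonneg (lamz_nonneg z n)]
    have h2 : lamz z n ≤ (Vz z)⁻¹ := by
      unfold lamz
      split_ifs
      · exact le_rfl
      · exact (inv_pos.2 (Vz_pos z)).le
    calc lamz z n ≤ L := h2.trans hVz
      _ = L * 1 := (mul_one L).symm
      _ ≤ _ := mul_le_mul_of_nonneg_left h1 hL0.le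
  have hFn : ∀ n, ‖FF z r n‖ = |ArithmeticFunction.vonMangoldt n - lsh z r n| := by
    intro n
    unfold FF
    rw [Complex.norm_real, Real.norm_eq_abs]
  have hncL : ∀ q : ℕ, 1 ≤ q → q ≤ P →
      ∑ n ∈ (Icc 1 P).filter (fun n => ¬ n.Coprime q), ‖LA n‖ ≤ P / L ^ U' := by
    intro q h1 h2
    refine le_trans (le_of_eq ?_) (hLc q h1 h2)
    apply sum_congr rfl
    intro n _
    unfold LA
    rw [Complex.norm_real, Real.norm_eq_abs, abs_of_nonneg ArithmeticFunction.vonMangoldt_nonneg]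
  have hncF : ∀ q : ℕ, 1 ≤ q → q ≤ P →
      ∑ n ∈ (Icc 1 P).filter (fun n => ¬ n.Coprime q), ‖FF z r n‖ ≤ P / L ^ U' := by
    intro q h1 h2
    refine le_trans (le_of_eq ?_) (hC q h1 h2)
    apply sum_congr rfl
    intro n _
    rw [hFn]
  have hLS : ∀ n, LS z r n = LA n - FF z r n := by
    intro n
    unfold LS LA FF
    push_cast
    ring
  have hmajL : ∀ (q : ℕ) [NeZero q], (q : ℝ) ≤ (P : ℝ) ^ (1 / 2 - ρ) →
      ∃ B : Finset (DirichletCharacter ℂ q), 1 ∈ B ∧ (B.card : ℝ) ≤ L ^ C3 ∧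
        ∀ η : ℝ, |η| ≤ L ^ (C1 + 1) / P → ∀ S : Finset (DirichletCharacter ℂ q), Disjoint S B →
          ∑ χ ∈ S, ‖cs q P LA η χ‖ ^ 2 ≤ (P : ℝ) ^ 2 / L ^ (A2 + 4) := hLm
  refine ⟨⟨?_, ?_, ?_⟩, ⟨?_, ?_, ?_⟩, ⟨?_, ?_, ?_⟩, ?_, ?_, ?_, ?_, ?_, ?_⟩ <;> (try rw [← hLd])
  · intro n hn
    have h1 := hLn n hn
    have h2 := htau n hn
    calc ‖LA n‖ ≤ L := h1
      _ ≤ 2 * L * 1 := by linarith
      _ ≤ _ := mul_le_mul_of_nonneg_left h2 (by positivity)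
  · intro q h1 h2
    exact (hncL q h1 h2).trans (divpow hP0 hL1 (by omega))
  · intro q _ hq
    obtain ⟨B, -, hB, h⟩ := hmajL q hq
    exact ⟨B, hB, fun η hη S hS => (h η hη S hS).trans (divpow (by positivity) hL1 (by omega))⟩
  · intro n hn
    have h1 := hSn n hn
    have h2 := htau n hn
    refine h1.trans ?_
    apply mul_le_mul_of_nonneg_right _ (by linarith)
    linarith
  · intro q h1 h2
    have h3 : ∑ n ∈ (Icc 1 P).filter (fun n => ¬ n.Coprime q), ‖LS z r n‖ ≤ 2 * (P / L ^ U') := by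
      calc ∑ n ∈ (Icc 1 P).filter (fun n => ¬ n.Coprime q), ‖LS z r n‖ ≤
            ∑ n ∈ (Icc 1 P).filter (fun n => ¬ n.Coprime q), (‖LA n‖ + ‖FF z r n‖) := by
              apply sum_le_sum
              intro n _
              rw [hLS]
              exact norm_sub_le _ _
        _ ≤ P / L ^ U' + P / L ^ U' := by
            rw [sum_add_distrib]
            exact add_le_add (hncL q h1 h2) (hncF q h1 h2)
        _ = _ := by ring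
    exact h3.trans (by exact_mod_cast divpow2 (k := 2) hP0 (by norm_num; linarith) hL1 hA)
  · intro q _ hq
    refine ⟨{1}, ?_, fun η hη S hS => ?_⟩
    · rw [card_singleton, Nat.cast_one]
      exact one_le_pow₀ hL1
    · have h1 : (1 : DirichletCharacter ℂ q) ∉ S := by
        rw [disjoint_singleton_right] at hS
        exact hS
      exact (hH q hq η hη S h1).trans (divpow (by positivity) hL1 (by omega))
  · intro n hn
    rw [hFn]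
    exact hTb n hn
  · intro q h1 h2
    exact (hncF q h1 h2).trans (divpow hP0 hL1 (by omega))
  · intro q _ hq
    obtain ⟨B, h1B, hB, h⟩ := hmajL q hq
    refine ⟨B, hB, fun η hη S hS => ?_⟩
    have h1 : (1 : DirichletCharacter ℂ q) ∉ S := fun h' => (Finset.disjoint_left.1 hS h') h1B
    have k1 := h η hη S hS
    have k2 := hH q hq η hη S h1
    calc ∑ χ ∈ S, ‖cs q P (FF z r) η χ‖ ^ 2 ≤
          ∑ χ ∈ S, (2 * ‖cs q P LA η χ‖ ^ 2 + 2 * ‖cs q P (LS z r) η χ‖ ^ 2) := by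
            apply sum_le_sum
            intro χ _
            rw [Pool.Agent.Y949.GJ.cs_sub]
            exact sq_sub_le _ _
      _ = 2 * ∑ χ ∈ S, ‖cs q P LA η χ‖ ^ 2 + 2 * ∑ χ ∈ S, ‖cs q P (LS z r) η χ‖ ^ 2 := by
          rw [sum_add_distrib, mul_sum, mul_sum]
      _ ≤ ((4 : ℕ) : ℝ) * ((P : ℝ) ^ 2 / L ^ (A2 + 4)) := by push_cast; linarith
      _ ≤ (P : ℝ) ^ 2 / L ^ A2 := divpow2 (by positivity) (by norm_num; linarith) hL1 (by omega)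
  · intro q _ hq k h β
    rw [← hLd]
    exact hF q hq k h β
  · intro α
    exact (hS α).trans (divpow hP0 hL1 hU)
  · intro q h1 h2
    exact (hncF q h1 h2).trans (divpow hP0 hL1 hU)
  · apply sq_small hLd hL hV
    · intro n hn
      refine (norm_sub_le _ _).trans ?_
      have h1 := hSn n hn
      have h2 := hZn n hn
      linarith
    · refine le_trans (le_of_eq ?_) hm
      apply sum_congr rfl
      intro n _
      unfold LS LZ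
      rw [← Complex.ofReal_sub, Complex.norm_real, Real.norm_eq_abs, abs_sub_comm]
  · exact sq_mom hLd (by linarith) hSn
  · exact sq_mom hLd (by linarith) hZn

/-- the sizes -/
lemma size7K (ρ : ℝ) (hρ : -1 / 4 < ρ) (P₀ : ℕ) {N : ℕ} (hN : (P₀ + 1) ^ 4 ≤ N)
    (h16 : (16 : ℝ) ≤ (N : ℝ) ^ (1 + 4 * ρ)) {T : ℕ} {c1 c2 c3 d : ℤ}
    {P1 P2 P3 : ℕ} (h : Par7 ρ N T c1 c2 c3 d P1 P2 P3) : P₀ ≤ P1 ∧ 1 ≤ P1 ∧ c1.natAbs * P1 ≤ N ∧
      Real.log N ≤ 4 * Real.log P1 ∧ Real.log P1 ≤ Real.log N ∧ ((c2.natAbs * c3.natAbs : ℕ) : ℝ) ≤ P1 := by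
  have hN1 : 1 ≤ N := le_trans (Nat.one_le_iff_ne_zero.2 (by positivity)) hN
  have hpos : ∀ (c : ℤ) (P : ℕ), N < 2 * (c.natAbs * P) → 1 ≤ P := by
    intro c P hc
    by_contra h0
    have : P = 0 := by omega
    subst this
    simp at hc
  have hP1 := hpos _ _ h.v1
  have hP2 := hpos _ _ h.v2
  have ha1 : 1 ≤ c1.natAbs := Int.natAbs_pos.2 h.n1
  have ha2 : 1 ≤ c2.natAbs := Int.natAbs_pos.2 h.n2
  have ha3 : 1 ≤ c3.natAbs := Int.natAbs_pos.2 h.n3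
  have hP2N : P2 ≤ N := (Nat.le_mul_of_pos_left _ ha2).trans h.u2
  have hP1N : P1 ≤ N := (Nat.le_mul_of_pos_left _ ha1).trans h.u1
  have h4 : (N : ℝ) ≤ (P1 : ℝ) ^ 4 := by
    refine sizesK N c1.natAbs P1 P2 ρ hρ hN1 ha1 h.v1 hP2 hP2N h16 (le_trans ?_ h.q2)
    exact_mod_cast Nat.le_mul_of_pos_right _ ha3
  have h4' : N ≤ P1 ^ 4 := by exact_mod_cast h4
  have h5 : P₀ + 1 ≤ P1 := by
    by_contra hc
    have h6 : P1 ^ 4 < (P₀ + 1) ^ 4 := Nat.pow_lt_pow_left (not_le.1 hc) (by norm_num)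
    omega
  refine ⟨by omega, hP1, h.u1, log_lowK hN1 hP1 h4, ?_, ?_⟩
  · exact Real.log_le_log (by exact_mod_cast hP1) (by exact_mod_cast hP1N)
  · refine h.q1.trans ?_
    calc (P1 : ℝ) ^ (1 / 2 - ρ) ≤ (P1 : ℝ) ^ (1 : ℝ) :=
          Real.rpow_le_rpow_of_exponent_le (by exact_mod_cast hP1) (by linarith)
      _ = P1 := Real.rpow_one _

theorem err7K (h1 : TernK) (hL2 : L2Stm) (hB3 : BilMaj3Stm) (hBm : BilMinStm) (hTM : TiMaj2Stm) (hTm : TiMinStm)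
    (hLsh : LshStm) (h5 : ModelStm) (h6 : HoldStm) :
    Err7K := by
  intro A T B₀ ρ hρ
  have hρ2 : 0 < ρ / 2 := by linarith
  have hlev : (1 / 2 - (-1 / 6 + ρ / 2) : ℝ) = 7 / 10 - (1 / 30 + ρ / 2) := by ring
  have hρ1 : (-1 / 4 : ℝ) < -1 / 6 + ρ := by linarith
  obtain ⟨A1, h1⟩ := h1 (A + 2) T (-1 / 6 + ρ) (-1 / 6 + ρ / 2) (by linarith) (by linarith)
  obtain ⟨Cg, Ng, hg⟩ := nLA hL2 hBm (A1 + 2) hρ2
  obtain ⟨Ch, Nh, hh⟩ := nHU hTm hLsh (A1 + 2) (ρ := 1 / 30 + ρ / 2) (by positivity)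
  obtain ⟨C1, hC1⟩ : ∃ C1, C1 = max Cg Ch := ⟨_, rfl⟩
  obtain ⟨A2, h1⟩ := h1 C1
  obtain ⟨C3, NL, hLm⟩ := mLA hL2 hB3 (A2 + 4) (C1 + 1) hρ2
  obtain ⟨NH, hH⟩ := mHU hTM hLsh (A2 + 4) (C1 + 1) (ρ := 1 / 30 + ρ / 2) (by positivity)
  obtain ⟨U, N0, hT⟩ := h1 C3
  obtain ⟨V, hV⟩ : ∃ V : ℕ, V = 2 * A + 19 := ⟨_, rfl⟩
  obtain ⟨U', hU'⟩ : ∃ U' : ℕ, U' = U + A2 + 2 * V + 13 := ⟨_, rfl⟩
  obtain ⟨Bm, hM⟩ := h5 U'
  refine ⟨max B₀ Bm, le_max_left _ _, ?_⟩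
  obtain ⟨B, hB⟩ : ∃ B : ℕ, B = max B₀ Bm := ⟨_, rfl⟩
  rw [← hB]
  have hBm : Bm ≤ B := by rw [hB]; exact le_max_right _ _
  obtain ⟨NM, hM⟩ := hM (B + 1)
  obtain ⟨Ne, hNe⟩ := ev_log 2048
  obtain ⟨Nl, hNl⟩ := ev_log (2 * 4 ^ V + 6)
  obtain ⟨Ns, hNs⟩ := Pool.Agent.Y258.GJ.asy 0 (1 + 4 * (-1 / 6 + ρ)) (1 / 16) (by linarith) (by norm_num)
  obtain ⟨P₀, hP₀⟩ : ∃ P₀ : ℕ, P₀ = Ng + Nh + NL + NH + NM + Ne := ⟨_, rfl⟩
  refine ⟨N0 + Nl + Ns + (P₀ + 1) ^ 4, fun N hN c1 c2 c3 d P1 P2 P3 hp => ?_⟩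
  have hNP : (P₀ + 1) ^ 4 ≤ N := by omega
  have h16 : (16 : ℝ) ≤ (N : ℝ) ^ (1 + 4 * (-1 / 6 + ρ)) := by
    have k1 := hNs N (by omega)
    rw [pow_zero] at k1
    linarith
  have hp' := rot7 hp
  have hp'' := rot7 hp'
  obtain ⟨p1, -, -, l1, m1, q1⟩ := size7K (-1 / 6 + ρ) hρ1 P₀ hNP h16 hp
  obtain ⟨p2, -, -, l2, m2, -⟩ := size7K (-1 / 6 + ρ) hρ1 P₀ hNP h16 hp'
  obtain ⟨p3, -, -, l3, m3, -⟩ := size7K (-1 / 6 + ρ) hρ1 P₀ hNP h16 hp''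
  have hsc : ∀ P : ℕ, P₀ ≤ P → ∃ r : ℕ, Sc (-1 / 6 + ρ / 2) A1 C1 A2 C3 U V P (zP B P) r := by
    intro P hP
    have hL := hNe P (by omega)
    obtain ⟨z1, z2⟩ := zP_bounds (P := P) hBm (by linarith)
    obtain ⟨r, hr1, hr2⟩ := hM P (by omega) (zP B P) z1 z2
    have hMin : MinAt P (1 / 30 + ρ / 2) A1 C1 (FF (zP B P) r) := by
      rw [hC1]
      exact min_FF (by linarith) (hg P (by omega)) (hh P (by omega) (zP B P) r hr1.hD hr1.hV)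
    refine ⟨r, scale hL (by omega) (by omega) (by omega) ?_ ?_ ?_ hr1 hr2⟩
    · intro q _ hq k h β k1 k2 k3 k4
      rw [hlev] at hq
      exact hMin q hq k h β k1 k2 k3 k4 P le_rfl
    · intro q _ hq
      rw [hlev] at hq
      obtain ⟨Bb, b1, b2, b3⟩ := hLm P (by omega) q hq
      exact ⟨Bb, b1, b2, fun η hη S hS => b3 η hη P le_rfl S hS⟩
    · intro q _ hq η hη S hS
      rw [hlev] at hq
      exact hH P (by omega) q hq (zP B P) r hr1.hD hr1.hV η hη P le_rfl S hS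
  obtain ⟨r1, s1⟩ := hsc P1 p1
  obtain ⟨r2, s2⟩ := hsc P2 p2
  obtain ⟨r3, s3⟩ := hsc P3 p3
  obtain ⟨L, hLd⟩ : ∃ L, L = Real.log (N : ℝ) := ⟨_, rfl⟩
  have hLN := hNl N (by omega)
  rw [← hLd] at l1 l2 l3 m1 m2 m3 hLN ⊢
  have h3V : (1 : ℝ) ≤ 4 ^ V := one_le_pow₀ (by norm_num)
  have hL8 : 8 ≤ L := by linarith
  have hL0 : 0 < L := by linarith
  have hL1 : 1 ≤ L := by linarith
  have ha1 : (0 : ℝ) < c1.natAbs := by exact_mod_cast Int.natAbs_pos.2 hp.n1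
  have ha2 : (0 : ℝ) < c2.natAbs := by exact_mod_cast Int.natAbs_pos.2 hp.n2
  have ha3 : (0 : ℝ) < c3.natAbs := by exact_mod_cast Int.natAbs_pos.2 hp.n3
  obtain ⟨μ, hμ⟩ : ∃ μ : ℝ, μ = (N : ℝ) ^ 2 / (c1.natAbs * c2.natAbs * c3.natAbs) := ⟨_, rfl⟩
  have hμ0 : 0 ≤ μ := by rw [hμ]; positivity
  -- the three terms with a difference of small exponential sums
  have t1 : ‖SS3 c1 c2 c3 d P1 P2 P3 (FF (zP B P1) r1) LA LA‖ ≤ μ / L ^ (A + 2) := by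
    have := hT N (by omega) hp (FF (zP B P1) r1) LA LA s1.mF s1.sF s2.sL s3.sL s1.sup s1.ncF
    rw [hμ, hLd]
    exact this
  have t2 : ‖SS3 c1 c2 c3 d P1 P2 P3 (LS (zP B P1) r1) (FF (zP B P2) r2) LA‖ ≤ μ / L ^ (A + 2) := by
    have := hT N (by omega) (swap7 hp) (FF (zP B P2) r2) (LS (zP B P1) r1) LA s2.mF s2.sF s1.sS s3.sL s2.sup s2.ncF
    rw [SS3_swap, hμ, hLd, mul_comm (c1.natAbs : ℝ) (c2.natAbs : ℝ)]
    exact this
  have t3 : ‖SS3 c1 c2 c3 d P1 P2 P3 (LS (zP B P1) r1) (LS (zP B P2) r2) (FF (zP B P3) r3)‖ ≤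
      μ / L ^ (A + 2) := by
    have := hT N (by omega) hp'' (FF (zP B P3) r3) (LS (zP B P1) r1) (LS (zP B P2) r2) s3.mF s3.sF s1.sS s2.sS
      s3.sup s3.ncF
    rw [← SS3_rot c3 c1 c2 d P3 P1 P2, hμ, hLd,
      show (c1.natAbs : ℝ) * c2.natAbs * c3.natAbs = c3.natAbs * c1.natAbs * c2.natAbs by ring]
    exact this
  -- the three terms with the error of the model
  have hX0 : (0 : ℝ) ≤ 1 / L ^ (A + 2) := by positivity
  have kV : ∀ ℓ : ℝ, L ≤ 4 * ℓ → 1 / ℓ ^ V ≤ 4 ^ V / L ^ V := by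
    intro ℓ h
    have hℓ : 0 < ℓ := by linarith
    rw [div_le_div_iff₀ (by positivity) (by positivity), one_mul, ← mul_pow]
    exact pow_le_pow_left₀ hL0.le h V
  have k7 : ∀ ℓ : ℝ, L ≤ 4 * ℓ → ℓ ≤ L → ℓ ^ 7 ≤ L ^ 7 := by
    intro ℓ h h'
    exact pow_le_pow_left₀ (by linarith) h' 7
  have hK : 2 * ((4 ^ V / L ^ V) * L ^ 7 * L ^ 7) ≤ (1 / L ^ (A + 2)) ^ 2 := by
    rw [div_pow, one_pow, le_div_iff₀ (by positivity)]
    have e : 2 * ((4 ^ V / L ^ V) * L ^ 7 * L ^ 7) * (L ^ (A + 2)) ^ 2 = (2 * 4 ^ V) * L ^ (2 * A + 18) / L ^ V := by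
      rw [← pow_mul, show (A + 2) * 2 = 2 * A + 4 by ring, show 2 * A + 18 = 7 + 7 + (2 * A + 4) by ring, pow_add,
        pow_add]
      ring
    rw [e, div_le_one (by positivity), hV]
    calc (2 * 4 ^ (2 * A + 19) : ℝ) * L ^ (2 * A + 18) ≤ L * L ^ (2 * A + 18) := by
          apply mul_le_mul_of_nonneg_right _ (by positivity)
          rw [hV] at hLN
          linarith
      _ = L ^ (2 * A + 19) := by ring
  have fV : ∀ {P z r : ℕ}, Sc (-1 / 6 + ρ / 2) A1 C1 A2 C3 U V P z r → L ≤ 4 * Real.log P →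
      ∑ n ∈ Icc 1 P, ‖LS z r n - LZ z n‖ ^ 2 ≤ P * (4 ^ V / L ^ V) := by
    intro P z r s h
    refine s.e2.trans ?_
    rw [div_eq_mul_one_div]
    exact mul_le_mul_of_nonneg_left (kV _ h) (Nat.cast_nonneg _)
  have fS : ∀ {P z r : ℕ}, Sc (-1 / 6 + ρ / 2) A1 C1 A2 C3 U V P z r → L ≤ 4 * Real.log P → Real.log P ≤ L →
      ∑ n ∈ Icc 1 P, ‖LS z r n‖ ^ 2 ≤ P * L ^ 7 := by
    intro P z r s h h'
    exact s.s2.trans (mul_le_mul_of_nonneg_left (k7 _ h h') (Nat.cast_nonneg _))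
  have fZ : ∀ {P z r : ℕ}, Sc (-1 / 6 + ρ / 2) A1 C1 A2 C3 U V P z r → L ≤ 4 * Real.log P → Real.log P ≤ L →
      ∑ n ∈ Icc 1 P, ‖LZ z n‖ ^ 2 ≤ P * L ^ 7 := by
    intro P z r s h h'
    exact s.l2.trans (mul_le_mul_of_nonneg_left (k7 _ h h') (Nat.cast_nonneg _))
  have hKa : (0 : ℝ) ≤ 4 ^ V / L ^ V := by positivity
  have hKb : (0 : ℝ) ≤ L ^ 7 := by positivity
  have t4 : ‖SS3 c1 c2 c3 d P1 P2 P3 (fun n => LS (zP B P1) r1 n - LZ (zP B P1) n) (LS (zP B P2) r2)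
      (LS (zP B P3) r3)‖ ≤ μ / L ^ (A + 2) := by
    have := hold7 h6 hp q1 hKa hKb hKb hX0 (fV s1 l1) (fS s2 l2 m2) (fS s3 l3 m3) hK
    rw [hμ, div_eq_mul_one_div]
    exact this
  have t5 : ‖SS3 c1 c2 c3 d P1 P2 P3 (LZ (zP B P1)) (fun n => LS (zP B P2) r2 n - LZ (zP B P2) n)
      (LS (zP B P3) r3)‖ ≤ μ / L ^ (A + 2) := by
    have := hold7 h6 hp q1 hKb hKa hKb hX0 (fZ s1 l1 m1) (fV s2 l2) (fS s3 l3 m3)
      (le_trans (le_of_eq (by ring)) hK)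
    rw [hμ, div_eq_mul_one_div]
    exact this
  have t6 : ‖SS3 c1 c2 c3 d P1 P2 P3 (LZ (zP B P1)) (LZ (zP B P2))
      (fun n => LS (zP B P3) r3 n - LZ (zP B P3) n)‖ ≤ μ / L ^ (A + 2) := by
    have := hold7 h6 hp q1 hKb hKb hKa hX0 (fZ s1 l1 m1) (fZ s2 l2 m2) (fV s3 l3)
      (le_trans (le_of_eq (by ring)) hK)
    rw [hμ, div_eq_mul_one_div]
    exact this
  -- assembling
  have hFF : ∀ z r : ℕ, (fun n => LA n - LS z r n) = FF z r := by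
    intro z r
    funext n
    unfold LA LS FF
    push_cast
    ring
  have hE : |S3 c1 c2 c3 d P1 P2 P3 (fun n => ArithmeticFunction.vonMangoldt n) (fun n => ArithmeticFunction.vonMangoldt n)
      (fun n => ArithmeticFunction.vonMangoldt n) -
    S3 c1 c2 c3 d P1 P2 P3 (fun n => lamz (zP B P1) n) (fun n => lamz (zP B P2) n)
      (fun n => lamz (zP B P3) n)| = ‖SS3 c1 c2 c3 d P1 P2 P3 LA LA LA -
        SS3 c1 c2 c3 d P1 P2 P3 (LZ (zP B P1)) (LZ (zP B P2)) (LZ (zP B P3))‖ := by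
    rw [← Real.norm_eq_abs, ← Complex.norm_real, Complex.ofReal_sub, S3_coe, S3_coe]
    rfl
  rw [hE, ← hμ]
  have hsplit : SS3 c1 c2 c3 d P1 P2 P3 LA LA LA -
        SS3 c1 c2 c3 d P1 P2 P3 (LZ (zP B P1)) (LZ (zP B P2)) (LZ (zP B P3)) =
      (SS3 c1 c2 c3 d P1 P2 P3 (FF (zP B P1) r1) LA LA +
       SS3 c1 c2 c3 d P1 P2 P3 (LS (zP B P1) r1) (FF (zP B P2) r2) LA +
       SS3 c1 c2 c3 d P1 P2 P3 (LS (zP B P1) r1) (LS (zP B P2) r2) (FF (zP B P3) r3)) +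
      (SS3 c1 c2 c3 d P1 P2 P3 (fun n => LS (zP B P1) r1 n - LZ (zP B P1) n) (LS (zP B P2) r2)
      (LS (zP B P3) r3) +
       SS3 c1 c2 c3 d P1 P2 P3 (LZ (zP B P1)) (fun n => LS (zP B P2) r2 n - LZ (zP B P2) n)
      (LS (zP B P3) r3) +
       SS3 c1 c2 c3 d P1 P2 P3 (LZ (zP B P1)) (LZ (zP B P2))
      (fun n => LS (zP B P3) r3 n - LZ (zP B P3) n)) := by
    rw [← SS3_tel, ← hFF, ← hFF, ← hFF, ← SS3_tel]
    ring
  rw [hsplit]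
  have hy : 0 ≤ μ / L ^ (A + 2) := by positivity
  calc ‖_‖ ≤ (μ / L ^ (A + 2) + μ / L ^ (A + 2) + μ / L ^ (A + 2)) +
        (μ / L ^ (A + 2) + μ / L ^ (A + 2) + μ / L ^ (A + 2)) := by
        refine (norm_add_le _ _).trans (add_le_add ?_ ?_)
        · exact (norm_add₃_le).trans (add_le_add (add_le_add t1 t2) t3)
        · exact (norm_add₃_le).trans (add_le_add (add_le_add t4 t5) t6)
    _ = ((6 : ℕ) : ℝ) * (μ / L ^ (A + 2)) := by push_cast; ring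
    _ ≤ μ / L ^ A := divpow2 hμ0 (by norm_num; linarith) hL1 (by omega)

end Pool.Agent.L7h46.TK
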